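import Pool.Agent.W882.Nip3.Main3

set_option autoImplicit false

/-!
Fields which are NIP, or `NIP_n` for some `n`, or `NTP2` have boundedly many pairwise incomparable
places with values in complete fields of dimension greater than one.
-/

namespace Pool.Agent.Results.MP_3554b5_lc.FewBadPlaces

open Pool.Agent.W882.Nip3

/-- Let `K` be a field which is NIP (the hypothesis of `S14569`), or `NIP_n` for some `n`, or
`NTP2`. For every `D` there is `N`, depending only on `D` and the theory of `K`, such that among
any `N` pairwise incomparable places of `K` (or of a field elementarily equivalent to `K`) with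
values in complete fields `F`, at least one has `F` of dimension at most one up to degree `D`: for
all separable extensions `M` of `F` and `L` of `M` of degree at most `D`, the norm map from `L` to
`M` is surjective. -/
theorem result (K : Type) [Field K] [FirstOrder.Ring.CompatibleRing K]
    (hK : NIPField K ∨ (∃ n, NIPnField n K) ∨ NTP2Field K) (D : ℕ) :
    ∃ N : ℕ, ∀ (K' : Type) [Field K'] [FirstOrder.Ring.CompatibleRing K'],
      FirstOrder.Language.ring.ElementarilyEquivalent K K' →
      ∀ P : Fin N → Place K', (Pairwise fun i j => (P i).Incomparable (P j)) →
        ∃ i, DimLeOneUpTo (P i).F D :=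
  main_general (fun e d => boundedG_of_tame hK e d) D

end Pool.Agent.Results.MP_3554b5_lc.FewBadPlaces
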